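import Pool.Agent.N870.D.Stm

/-!
# Project D (helper870), part CMB (helper263): the largest unlinked sets

The first part (the lemma of Lindsey) is copied from `Pool.Agent.TH344.DT.Cmb` and
`Pool.Agent.N559.EG.COMBK`.
-/

set_option autoImplicit false
set_option linter.unusedSectionVars false

namespace Pool.Agent.N263.D

open Finset Pool.Agent.N870.D Pool.Agent.TH841.TR
open Pool.Agent.W307.FK (dt)

/-! ### The lemma of Lindsey -/

/-- the character -/
def chi (k : ℕ) (x z : Fin k → Bool) : ℤ := ∏ j, (if (x j && z j) = true then -1 else 1)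

theorem chi_eq (k : ℕ) (x z : Fin k → Bool) : chi k x z = (-1) ^ dt k x z := by
  unfold chi dt
  rw [Finset.prod_ite, Finset.prod_const, Finset.prod_const_one, mul_one]

theorem chi_symm (k : ℕ) (x z : Fin k → Bool) : chi k x z = chi k z x := by
  unfold chi
  apply Finset.prod_congr rfl
  intro j _
  rw [Bool.and_comm]

theorem chi_sum (k : ℕ) (x x' : Fin k → Bool) :
    ∑ z, chi k x z * chi k x' z = if x = x' then 2 ^ k else 0 := by
  unfold chi
  simp_rw [← Finset.prod_mul_distrib]
  have h1 := Fintype.prod_sum (fun (j : Fin k) (s : Bool) =>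
    (if (x j && s) = true then (-1 : ℤ) else 1) * (if (x' j && s) = true then -1 else 1))
  rw [← h1]
  simp only [Fintype.sum_bool]
  split_ifs with h
  · subst h
    have h2 : ∀ j : Fin k, ((if (x j && true) = true then (-1 : ℤ) else 1) *
        (if (x j && true) = true then -1 else 1) + (if (x j && false) = true then (-1 : ℤ) else 1) *
        (if (x j && false) = true then -1 else 1)) = 2 := by
      intro j
      cases x j <;> simp
    rw [Finset.prod_congr rfl fun j _ => h2 j]
    simp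
  · obtain ⟨j, hj⟩ := Function.ne_iff.1 h
    apply Finset.prod_eq_zero (mem_univ j)
    cases hx : x j <;> cases hx' : x' j
    · rw [hx, hx'] at hj
      exact absurd rfl hj
    · simp
    · simp
    · rw [hx, hx'] at hj
      exact absurd rfl hj

/-- the vectors -/
abbrev VV (k : ℕ) : Type := (Fin k → Bool) × (Fin k → Bool)

/-- the symplectic sign -/
def hh (k : ℕ) (a b : VV k) : ℤ := chi k a.1 b.2 * chi k b.1 a.2

theorem hh_sum (k : ℕ) (a a' : VV k) :
    ∑ b, hh k a b * hh k a' b = if a = a' then 4 ^ k else 0 := by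
  rw [Fintype.sum_prod_type]
  have h1 : ∀ x y : Fin k → Bool, hh k a (x, y) * hh k a' (x, y) =
      (chi k a.2 x * chi k a'.2 x) * (chi k a.1 y * chi k a'.1 y) := by
    intro x y
    unfold hh
    simp only
    rw [chi_symm k x a.2, chi_symm k x a'.2]
    ring
  simp_rw [h1, ← Finset.mul_sum, ← Finset.sum_mul]
  rw [chi_sum, chi_sum]
  by_cases h : a = a'
  · rw [if_pos h, if_pos (by rw [h]), if_pos (by rw [h]), ← mul_pow]
    norm_num
  · rw [if_neg h]
    by_cases h2 : a.2 = a'.2
    · have h3 : a.1 ≠ a'.1 := fun h4 => h (Prod.ext h4 h2)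
      rw [if_neg h3, mul_zero]
    · rw [if_neg h2, zero_mul]

theorem lindsey (k : ℕ) (A B : Finset (VV k))
    (h : ∀ a ∈ A, ∀ b ∈ B, hh k a b = 1) : A.card * B.card ≤ 4 ^ k := by
  have h1 : ∑ b, (∑ a ∈ A, hh k a b) ^ 2 = (A.card : ℤ) * 4 ^ k := by
    simp_rw [sq, Finset.sum_mul_sum]
    rw [Finset.sum_comm]
    have h2 : ∀ a ∈ A, ∑ b, ∑ a' ∈ A, hh k a b * hh k a' b = 4 ^ k := by
      intro a ha
      rw [Finset.sum_comm]
      simp_rw [hh_sum]
      rw [Finset.sum_ite_eq, if_pos ha]
    rw [Finset.sum_congr rfl h2, Finset.sum_const, nsmul_eq_mul]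
  have h3 : (B.card : ℤ) * (A.card : ℤ) ^ 2 ≤ ∑ b, (∑ a ∈ A, hh k a b) ^ 2 := by
    have h4 : ∑ b ∈ B, (∑ a ∈ A, hh k a b) ^ 2 = (B.card : ℤ) * (A.card : ℤ) ^ 2 := by
      have h5 : ∀ b ∈ B, (∑ a ∈ A, hh k a b) ^ 2 = (A.card : ℤ) ^ 2 := by
        intro b hb
        rw [Finset.sum_congr rfl fun a ha => h a ha b hb]
        simp
      rw [Finset.sum_congr rfl h5, Finset.sum_const, nsmul_eq_mul]
    rw [← h4]
    exact Finset.sum_le_sum_of_subset_of_nonneg (Finset.subset_univ _) fun b _ _ => sq_nonneg _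
  rw [h1] at h3
  rcases Nat.eq_zero_or_pos A.card with h0 | h0
  · rw [h0, zero_mul]
    exact Nat.zero_le _
  · have h4 : B.card * A.card ^ 2 ≤ A.card * 4 ^ k := by exact_mod_cast h3
    have h5 : A.card * (A.card * B.card) ≤ A.card * 4 ^ k := by
      calc A.card * (A.card * B.card) = B.card * A.card ^ 2 := by ring
        _ ≤ A.card * 4 ^ k := h4
    exact Nat.le_of_mul_le_mul_left h5 h0

/-- the pairs with even scalar product -/
def ev (k : ℕ) : Finset (VV k) :=
  univ.filter fun a => dt k a.1 a.2 % 2 = 0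

theorem chi_tot (k : ℕ) : ∑ a : VV k, chi k a.1 a.2 = 2 ^ k := by
  rw [Fintype.sum_prod_type]
  simp only
  have h0 : ∀ x : Fin k → Bool, ∑ y, chi k x y =
      if x = (fun _ => false) then (2 : ℤ) ^ k else 0 := by
    intro x
    have h1 := chi_sum k x (fun _ => false)
    have h2 : ∀ z, chi k (fun _ => false) z = 1 := by
      intro z
      unfold chi
      simp
    simp only [h2, mul_one] at h1
    exact h1
  simp_rw [h0]
  rw [Finset.sum_ite_eq' univ (fun _ => false)]
  simp

theorem ev_card (k : ℕ) : 2 * (ev k).card = 4 ^ k + 2 ^ k := by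
  have h1 : ∑ a : VV k, chi k a.1 a.2 =
      ∑ a : VV k, (2 * (if dt k a.1 a.2 % 2 = 0 then (1 : ℤ) else 0) - 1) := by
    apply Finset.sum_congr rfl
    intro a _
    rw [chi_eq]
    split_ifs with h
    · rw [Even.neg_one_pow (Nat.even_iff.2 h)]
      norm_num
    · rw [Odd.neg_one_pow (Nat.odd_iff.2 (by omega))]
      norm_num
  rw [chi_tot, Finset.sum_sub_distrib, ← Finset.mul_sum, Finset.sum_boole, Finset.sum_const,
    Finset.card_univ, Fintype.card_prod, Fintype.card_fun, Fintype.card_bool, Fintype.card_fin,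
    ← mul_pow, nsmul_eq_mul, mul_one] at h1
  have h2 : (2 : ℤ) * ((ev k).card : ℤ) = 4 ^ k + 2 ^ k := by
    have h3 : ((2 * 2 : ℕ) ^ k : ℕ) = 4 ^ k := by norm_num
    rw [h3] at h1
    push_cast at h1
    unfold ev
    linarith
  exact_mod_cast h2

theorem card_VV (k : ℕ) : (univ : Finset (VV k)).card = 4 ^ k := by
  rw [Finset.card_univ, Fintype.card_prod, Fintype.card_fun, Fintype.card_bool, Fintype.card_fin,
    ← mul_pow]
  norm_num

/-! ### The zero vector -/

/-- the zero vector -/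
def z0 (k : ℕ) : VV k := (fun _ => false, fun _ => false)

theorem dt_zl (k : ℕ) (y : Fin k → Bool) : dt k (fun _ => false) y = 0 := by
  unfold dt; simp

theorem dt_zr (k : ℕ) (x : Fin k → Bool) : dt k x (fun _ => false) = 0 := by
  unfold dt; simp

theorem hh_z (k : ℕ) (b : VV k) : hh k (z0 k) b = 1 := by
  unfold hh z0
  rw [chi_eq, chi_eq, dt_zl, dt_zr]
  norm_num

theorem hh_symm (k : ℕ) (a b : VV k) : hh k a b = hh k b a := by
  unfold hh; ring

/-! ### Arithmetic -/

theorem arB1 {P a a' n m : ℤ} (hP : 2 ≤ P) (h1 : a * a' ≤ P * P) (h2 : P < a)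
    (h3 : 2 * a ≤ P * P) (h4 : n * P ≤ 2 * m) (h5 : 1 ≤ n) :
    n * a + m * a' ≤ (n + m) * P ∧
    ((n + m) * P ≤ n * a + m * a' → 2 * a = P * P ∧ a' = 2) := by
  have hm : 1 ≤ m := by nlinarith
  have ha : 0 < a := by linarith
  set x := n * a + m * a' - (n + m) * P with hx
  have e1 : a * x = (a - P) * (n * a - m * P) + m * (a * a' - P * P) := by rw [hx]; ring
  have e2 : 2 * (n * a - m * P) ≤ n * (2 * a - P * P) := by nlinarith
  have e3 : n * (2 * a - P * P) ≤ 0 := by nlinarith
  have e4 : n * a - m * P ≤ 0 := by linarith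
  have e5 : (a - P) * (n * a - m * P) ≤ 0 := mul_nonpos_of_nonneg_of_nonpos (by linarith) e4
  have e6 : m * (a * a' - P * P) ≤ 0 := mul_nonpos_of_nonneg_of_nonpos (by linarith) (by linarith)
  have e7 : x ≤ 0 := by
    by_contra hc
    have : 0 < a * x := mul_pos ha (by linarith)
    linarith
  refine ⟨by linarith, fun h => ?_⟩
  have e8 : x = 0 := by linarith
  rw [e8, mul_zero] at e1
  have e9 : (a - P) * (n * a - m * P) = 0 := by linarith
  have e10 : m * (a * a' - P * P) = 0 := by linarith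
  have e11 : n * a - m * P = 0 := (mul_eq_zero.mp e9).resolve_left (by linarith)
  have e12 : a * a' - P * P = 0 := (mul_eq_zero.mp e10).resolve_left (by linarith)
  have e13 : n * (2 * a - P * P) = 0 := by linarith
  have e14 : 2 * a - P * P = 0 := (mul_eq_zero.mp e13).resolve_left (by linarith)
  refine ⟨by linarith, ?_⟩
  have e15 : a * (a' - 2) = 0 := by linarith
  have := (mul_eq_zero.mp e15).resolve_left (by linarith)
  linarith

theorem arB2 {P a a' n m : ℤ} (hP : 2 ≤ P) (h1 : a * a' ≤ P * P) (h2 : P < a)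
    (h3 : 2 * a ≤ P * P) (h4 : 2 * m < n * P) (h5 : 1 ≤ n) (h7 : 0 ≤ m) :
    2 * (n * a + m * a') < n * (P * P + P) + 2 * m := by
  rcases le_or_gt a' 1 with h | h
  · have e1 : m * a' ≤ m * 1 := mul_le_mul_of_nonneg_left h h7
    have e2 : n * (2 * a) ≤ n * (P * P) := mul_le_mul_of_nonneg_left h3 (by linarith)
    have e3 : 0 < n * P := mul_pos (by linarith) (by linarith)
    nlinarith
  · have ha : 0 < a := by linarith
    have e1 : 2 * a + P * a' ≤ P * P + 2 * P := by
      have e2 : a * (2 * a + P * a') ≤ a * (P * P + 2 * P) := by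
        have e3 : (a - P) * (2 * a - P * P) ≤ 0 :=
          mul_nonpos_of_nonneg_of_nonpos (by linarith) (by linarith)
        have e4 : P * (a * a') ≤ P * (P * P) := mul_le_mul_of_nonneg_left h1 (by linarith)
        nlinarith
      exact le_of_mul_le_mul_left e2 ha
    have e5 : 2 * m * (a' - 1) < n * P * (a' - 1) := mul_lt_mul_of_pos_right h4 (by linarith)
    have e6 : n * (2 * a + P * a') ≤ n * (P * P + 2 * P) :=
      mul_le_mul_of_nonneg_left e1 (by linarith)
    nlinarith

section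

variable {J : Type} [Fintype J] [DecidableEq J]

theorem ortho {cls : J → Fin 3} {k : ℕ} (i i' : IA J k) (hc : cls i.1 ≠ cls i'.1)
    (h : LA cls i i' = LA cls i' i) : hh k i.2 i'.2 = 1 := by
  unfold hh
  rw [chi_eq, chi_eq, ← pow_add]
  unfold LA at h
  have h1 : decide (dt k i.2.1 i'.2.2 % 2 = 1) = decide (dt k i'.2.1 i.2.2 % 2 = 1) := by
    simpa [hc, hc.symm] using h
  have h2 : (dt k i.2.1 i'.2.2 % 2 = 1) ↔ (dt k i'.2.1 i.2.2 % 2 = 1) := by
    simpa using h1
  apply Even.neg_one_pow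
  rw [Nat.even_iff]
  omega

theorem fib {k : ℕ} (G : Finset (IA J k)) (H : J → Finset (VV k)) (h : ∀ i ∈ G, i.2 ∈ H i.1) :
    G.card ≤ ∑ j, (H j).card ∧ (∑ j, (H j).card ≤ G.card → ∀ j, ∀ v ∈ H j, (j, v) ∈ G) := by
  classical
  let S : Finset (IA J k) := univ.filter fun i => i.2 ∈ H i.1
  have hS : S.card = ∑ j, (H j).card := by
    change (univ.filter fun i : IA J k => i.2 ∈ H i.1).card = _
    rw [card_filter, Fintype.sum_prod_type]
    refine sum_congr rfl fun j _ => ?_
    simp
  have hGS : G ⊆ S := fun i hi => mem_filter.mpr ⟨mem_univ _, h i hi⟩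
  refine ⟨hS ▸ card_le_card hGS, fun hle j v hv => ?_⟩
  have : G = S := eq_of_subset_of_card_le hGS (by rw [hS]; exact hle)
  rw [this]
  exact mem_filter.mpr ⟨mem_univ _, hv⟩

/-- the integer exponent of a class -/
def EE (cls : J → Fin 3) (sp : J → Bool) (k : ℕ) (c : Fin 3) : ℕ :=
  ∑ j, if cls j ≠ c then 1 else if sp j = true then 4 ^ k else (ev k).card

/-- the structure of the second extremal case -/
def II (cls : J → Fin 3) (sp : J → Bool) (k : ℕ) (Y G : Finset (IA J k)) (c : Fin 3) : Prop :=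
  (∀ y ∈ Y, cls y.1 ≠ c → y.2 = z0 k) ∧ (∀ j, cls j ≠ c → (j, z0 k) ∈ G) ∧
  ∀ j (v : VV k), cls j = c → (sp j = true ∨ dt k v.1 v.2 % 2 = 0) → (j, v) ∈ G

theorem unc_of {cls : J → Fin 3} {k : ℕ} {Y : Finset (IA J k)} {c : Fin 3}
    (hY : ∀ y ∈ Y, cls y.1 ≠ c → y.2 = z0 k) (i : IA J k) (hi : cls i.1 = c) :
    Unc (LA cls) i Y := by
  intro y hy
  unfold LA
  by_cases hc : cls y.1 = c
  · simp [hc, hi]
  · have h1 := hY y hy hc
    rw [h1]
    unfold z0
    simp [dt_zl, dt_zr]

theorem core {cls : J → Fin 3} {sp : J → Bool} {k : ℕ} (hk : 1 ≤ k)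
    (hJ : ∀ c : Fin 3, ∃ j, cls j ≠ c) (F' Y G : Finset (IA J k)) (hFY : F' ⊆ Y)
    (hL : ∀ i ∈ F', ∀ j ∈ Y, LA cls i j = LA cls j i)
    (hG : ∀ i ∈ G, i ∈ F' ∧ ¬ (i ∈ ZA sp k ∧ Unc (LA cls) i Y)) :
    (G.card < 2 ^ k * Fintype.card J ∨ ∃ c, G.card < EE cls sp k c) ∨
    ((G.card ≤ 2 ^ k * Fintype.card J ∨ ∃ c, G.card ≤ EE cls sp k c) ∧
      (Y ⊆ G ∨ ∃ c, II cls sp k Y G c)) := by
  classical
  set P : ℕ := 2 ^ k with hP
  have h4 : (4 : ℕ) ^ k = P * P := by rw [hP, ← mul_pow]; norm_num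
  have hP2 : 2 ≤ P := by
    calc 2 = 2 ^ 1 := rfl
      _ ≤ 2 ^ k := Nat.pow_le_pow_right (by norm_num) hk
  let A : Fin 3 → Finset (VV k) := fun c => (G.filter fun i => cls i.1 = c).image Prod.snd
  let B : Fin 3 → Finset (VV k) := fun c => (Y.filter fun i => cls i.1 = c).image Prod.snd
  have hGY : ∀ i ∈ G, i ∈ Y := fun i hi => hFY (hG i hi).1
  have hAm : ∀ i ∈ G, i.2 ∈ A (cls i.1) := fun i hi =>
    mem_image.mpr ⟨i, mem_filter.mpr ⟨hi, rfl⟩, rfl⟩
  have hBm : ∀ i ∈ Y, i.2 ∈ B (cls i.1) := fun i hi =>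
    mem_image.mpr ⟨i, mem_filter.mpr ⟨hi, rfl⟩, rfl⟩
  have hAB : ∀ c, A c ⊆ B c := fun c =>
    image_subset_image (filter_subset_filter _ fun i hi => hGY i hi)
  have hpair : ∀ c c', c ≠ c' → (A c).card * (B c').card ≤ P * P := by
    intro c c' hcc
    rw [← h4]
    apply lindsey
    intro a ha b hb
    obtain ⟨i, hi, rfl⟩ := mem_image.mp ha
    obtain ⟨j, hj, rfl⟩ := mem_image.mp hb
    rw [mem_filter] at hi hj
    exact ortho i j (by rw [hi.2, hj.2]; exact hcc) (hL i (hG i hi.1).1 j hj.1)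
  have hfib := fib G (fun j => A (cls j)) hAm
  by_cases ha : ∀ c, (A c).card ≤ P
  · -- (a)
    have hsum : ∑ j, (A (cls j)).card ≤ P * Fintype.card J := by
      calc ∑ j, (A (cls j)).card ≤ ∑ _j : J, P := sum_le_sum fun j _ => ha _
        _ = P * Fintype.card J := by rw [sum_const, card_univ, smul_eq_mul, mul_comm]
    rcases lt_or_ge G.card (P * Fintype.card J) with h | h
    · exact Or.inl (Or.inl h)
    right
    refine ⟨Or.inl (hfib.1.trans hsum), Or.inl ?_⟩
    have heq : ∀ j, (A (cls j)).card = P := by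
      intro j
      by_contra hne
      have hlt : (A (cls j)).card < P := lt_of_le_of_ne (ha _) hne
      have : ∑ j, (A (cls j)).card < ∑ _j : J, P :=
        sum_lt_sum (fun j _ => ha _) ⟨j, mem_univ _, hlt⟩
      rw [sum_const, card_univ, smul_eq_mul, mul_comm] at this
      have h1 := hfib.1
      omega
    intro y hy
    obtain ⟨j', hj'⟩ := hJ (cls y.1)
    have h1 := hpair (cls j') (cls y.1) hj'
    rw [heq j'] at h1
    have h2 : (B (cls y.1)).card ≤ P := Nat.le_of_mul_le_mul_left h1 (by omega)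
    have h3 : A (cls y.1) = B (cls y.1) :=
      eq_of_subset_of_card_le (hAB _) (by rw [heq]; exact h2)
    have h5 : y.2 ∈ A (cls y.1) := by rw [h3]; exact hBm y hy
    exact hfib.2 (hsum.trans h) y.1 y.2 h5
  push Not at ha
  obtain ⟨c0, hc0⟩ := ha
  by_cases hQ : 2 * (A c0).card ≤ P * P
  · -- (b)
    set a := (A c0).card with haa
    obtain ⟨j1, hj1⟩ := hJ c0
    let C : Finset (Fin 3) := univ.filter fun c => c ≠ c0
    have hCne : C.Nonempty := ⟨cls j1, mem_filter.mpr ⟨mem_univ _, hj1⟩⟩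
    obtain ⟨c1, hc1, hsup⟩ := exists_mem_eq_sup C hCne fun c => (A c).card
    have hc1' : c1 ≠ c0 := (mem_filter.mp hc1).2
    set a' := (A c1).card with ha'
    have hle : ∀ c, c ≠ c0 → (A c).card ≤ a' := by
      intro c hc
      rw [← hsup]
      exact le_sup (f := fun c => (A c).card) (mem_filter.mpr ⟨mem_univ _, hc⟩)
    have hmul : a * a' ≤ P * P :=
      (Nat.mul_le_mul_left _ (card_le_card (hAB c1))).trans (hpair c0 c1 hc1'.symm)
    set n := (univ.filter fun j => cls j = c0).card with hn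
    set m := (univ.filter fun j => cls j ≠ c0).card with hm
    have hnm : n + m = Fintype.card J := by
      rw [hn, hm]
      exact card_filter_add_card_filter_not (s := (univ : Finset J)) (fun j => cls j = c0)
    have hterm : ∀ j, (A (cls j)).card ≤ if cls j = c0 then a else a' := by
      intro j
      by_cases hj : cls j = c0
      · rw [if_pos hj, hj]
      · rw [if_neg hj]; exact hle _ hj
    have hite : ∑ j, (if cls j = c0 then a else a') = n * a + m * a' := by
      rw [sum_ite, sum_const, sum_const, smul_eq_mul, smul_eq_mul]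
    have hsum : ∑ j, (A (cls j)).card ≤ n * a + m * a' := by
      rw [← hite]
      exact sum_le_sum fun j _ => hterm j
    have hn1 : 1 ≤ n := by
      have h1 : 0 < (A c0).card := by omega
      obtain ⟨v, hv⟩ := card_pos.mp h1
      obtain ⟨i, hi, _⟩ := mem_image.mp hv
      exact card_pos.mpr ⟨i.1, mem_filter.mpr ⟨mem_univ _, (mem_filter.mp hi).2⟩⟩
    rcases le_or_gt (n * P) (2 * m) with hb | hb
    · -- (b1)
      have har := arB1 (P := (P : ℤ)) (a := (a : ℤ)) (a' := (a' : ℤ)) (n := (n : ℤ)) (m := (m : ℤ))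
        (by exact_mod_cast hP2) (by exact_mod_cast hmul) (by exact_mod_cast hc0)
        (by exact_mod_cast hQ) (by exact_mod_cast hb) (by exact_mod_cast hn1)
      have har1 : n * a + m * a' ≤ (n + m) * P := by exact_mod_cast har.1
      have har2 : (n + m) * P ≤ n * a + m * a' → 2 * a = P * P ∧ a' = 2 := by
        intro h
        have := har.2 (by exact_mod_cast h)
        exact ⟨by exact_mod_cast this.1, by exact_mod_cast this.2⟩
      have hPn : P * Fintype.card J = (n + m) * P := by rw [hnm, mul_comm]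
      rcases lt_or_ge G.card (P * Fintype.card J) with h | h
      · exact Or.inl (Or.inl h)
      right
      refine ⟨Or.inl (by rw [hPn]; exact (hfib.1.trans hsum).trans har1), Or.inl ?_⟩
      obtain ⟨e1, e2⟩ := har2 (by rw [← hPn]; exact (h.trans hfib.1).trans hsum)
      have hteq : ∀ j, (A (cls j)).card = if cls j = c0 then a else a' := by
        intro j
        by_contra hne
        have hlt := lt_of_le_of_ne (hterm j) hne
        have : ∑ j, (A (cls j)).card < ∑ j, (if cls j = c0 then a else a') :=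
          sum_lt_sum (fun j _ => hterm j) ⟨j, mem_univ _, hlt⟩
        rw [hite] at this
        have h1 := hfib.1
        omega
      intro y hy
      have hBA : (B (cls y.1)).card ≤ (A (cls y.1)).card := by
        by_cases hyc : cls y.1 = c0
        · have h1 := hpair (cls j1) (cls y.1) (by rw [hyc]; exact hj1)
          rw [hteq j1, if_neg hj1, e2, ← e1] at h1
          rw [hteq y.1, if_pos hyc]
          omega
        · have h1 := hpair c0 (cls y.1) (Ne.symm hyc)
          rw [← haa, ← e1, mul_comm 2 a] at h1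
          rw [hteq y.1, if_neg hyc, e2]
          exact Nat.le_of_mul_le_mul_left h1 (by omega)
      have h3 : A (cls y.1) = B (cls y.1) := eq_of_subset_of_card_le (hAB _) hBA
      have h5 : y.2 ∈ A (cls y.1) := by rw [h3]; exact hBm y hy
      refine hfib.2 ?_ y.1 y.2 h5
      exact (hsum.trans har1).trans (by rw [← hPn]; exact h)
    · -- (b2)
      left; right
      refine ⟨c0, ?_⟩
      have har := arB2 (P := (P : ℤ)) (a := (a : ℤ)) (a' := (a' : ℤ)) (n := (n : ℤ)) (m := (m : ℤ))
        (by exact_mod_cast hP2) (by exact_mod_cast hmul) (by exact_mod_cast hc0)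
        (by exact_mod_cast hQ) (by exact_mod_cast hb) (by exact_mod_cast hn1)
        (by positivity)
      have har1 : 2 * (n * a + m * a') < n * (P * P + P) + m * 2 := by
        have : 2 * ((n : ℤ) * a + m * a') < n * (P * P + P) + m * 2 := by linarith
        exact_mod_cast this
      have hE : n * (P * P + P) + m * 2 ≤ 2 * EE cls sp k c0 := by
        have h1 : ∑ j, (if cls j = c0 then P * P + P else 2) = n * (P * P + P) + m * 2 := by
          rw [sum_ite, sum_const, sum_const, smul_eq_mul, smul_eq_mul]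
        rw [← h1]
        unfold EE
        rw [mul_sum]
        refine sum_le_sum fun j _ => ?_
        have h2 := ev_card k
        rw [h4, ← hP] at h2
        by_cases hj : cls j = c0
        · rw [if_pos hj, if_neg (not_not.mpr hj)]
          split
          · rw [h4]
            have : P ≤ P * P := Nat.le_mul_of_pos_left P (by omega)
            omega
          · omega
        · rw [if_neg hj, if_pos hj]
          norm_num
      have h1 := hfib.1
      omega
  · -- (c)
    have hY0 : ∀ y ∈ Y, cls y.1 ≠ c0 → y.2 = z0 k := by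
      intro y hy hyc
      by_contra hne
      apply hQ
      have h1 := lindsey k {z0 k, y.2} (A c0) (by
        intro u hu b hb
        rw [mem_insert, mem_singleton] at hu
        rcases hu with rfl | rfl
        · exact hh_z k b
        · obtain ⟨i, hi, rfl⟩ := mem_image.mp hb
          rw [mem_filter] at hi
          rw [hh_symm]
          exact ortho i y (by rw [hi.2]; exact Ne.symm hyc) (hL i (hG i hi.1).1 y hy))
      rw [card_pair (Ne.symm hne), h4] at h1
      exact h1
    let H : J → Finset (VV k) := fun j =>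
      if cls j ≠ c0 then {z0 k} else if sp j = true then univ else ev k
    have hHc : ∑ j, (H j).card = EE cls sp k c0 := by
      unfold EE
      refine sum_congr rfl fun j _ => ?_
      simp only [H]
      split_ifs
      · exact card_singleton _
      · exact card_VV k
      · rfl
    have hfib2 := fib G H (by
      intro i hi
      simp only [H]
      by_cases hic : cls i.1 = c0
      · rw [if_neg (not_not.mpr hic)]
        by_cases hs : sp i.1 = true
        · rw [if_pos hs]; exact mem_univ _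
        · rw [if_neg hs]
          by_contra hodd
          apply (hG i hi).2
          refine ⟨?_, unc_of hY0 i hic⟩
          unfold ZA
          rw [mem_filter]
          refine ⟨mem_univ _, by simpa using hs, ?_⟩
          unfold ev at hodd
          rw [mem_filter] at hodd
          have : ¬ dt k i.2.1 i.2.2 % 2 = 0 := fun h => hodd ⟨mem_univ _, h⟩
          omega
      · rw [if_pos hic, mem_singleton]
        exact hY0 i (hGY i hi) hic)
    rw [hHc] at hfib2
    rcases lt_or_ge G.card (EE cls sp k c0) with h | h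
    · exact Or.inl (Or.inr ⟨c0, h⟩)
    right
    refine ⟨Or.inr ⟨c0, hfib2.1⟩, Or.inr ⟨c0, hY0, ?_, ?_⟩⟩
    · intro j hj
      apply hfib2.2 h
      simp only [H]
      rw [if_pos hj]
      exact mem_singleton_self _
    · intro j v hj hv
      apply hfib2.2 h
      simp only [H]
      rw [if_neg (not_not.mpr hj)]
      rcases hv with hv | hv
      · rw [if_pos hv]; exact mem_univ _
      · split
        · exact mem_univ _
        · exact mem_filter.mpr ⟨mem_univ _, hv⟩

theorem EE_eq (cls : J → Fin 3) (sp : J → Bool) (k : ℕ) (c : Fin 3) :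
    (EE cls sp k c : ℝ) * (1 / 2 ^ k) = (Fintype.card J : ℝ) + ec cls sp k c := by
  classical
  have hN : (2 : ℝ) * (ev k).card = 4 ^ k + 2 ^ k := by exact_mod_cast ev_card k
  have h1 : (EE cls sp k c : ℝ) = ((univ.filter fun j => cls j ≠ c).card : ℝ) +
      ((univ.filter fun j => cls j = c).card : ℝ) * (ev k).card +
      ((univ.filter fun j => cls j = c ∧ sp j = true).card : ℝ) * (4 ^ k - (ev k).card) := by
    unfold EE
    rw [card_filter, card_filter, card_filter]
    push_cast
    rw [sum_mul, sum_mul, ← sum_add_distrib, ← sum_add_distrib]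
    refine sum_congr rfl fun j _ => ?_
    by_cases hj : cls j = c
    · by_cases hs : sp j = true
      · simp [hj, hs]
      · simp [hj, hs]
    · simp [hj]
  have h2 : ((Fintype.card J : ℕ) : ℝ) = ((univ.filter fun j => cls j = c).card : ℝ) +
      ((univ.filter fun j => cls j ≠ c).card : ℝ) := by
    have := card_filter_add_card_filter_not (s := (univ : Finset J)) (fun j => cls j = c)
    rw [card_univ] at this
    rw [← this]
    push_cast
    rfl
  unfold ec
  rw [h1, h2]
  have h3 : (4 : ℝ) ^ k = 2 ^ k * 2 ^ k := by rw [← mul_pow]; norm_num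
  have h5 : ((ev k).card : ℝ) = (2 ^ k * 2 ^ k + 2 ^ k) / 2 := by
    rw [h3] at hN
    linarith
  rw [h3, h5]
  have h6 : (0 : ℝ) < 2 ^ k := by positivity
  generalize ((univ.filter fun j => cls j = c).card : ℝ) = u
  generalize ((univ.filter fun j => cls j ≠ c).card : ℝ) = v
  generalize ((univ.filter fun j => cls j = c ∧ sp j = true).card : ℝ) = w
  field_simp
  ring

theorem bd_le {cls : J → Fin 3} {sp : J → Bool} {k : ℕ} {T : ℝ} (hn : (Fintype.card J : ℝ) ≤ T)
    (hc : ∀ c : Fin 3, (Fintype.card J : ℝ) + ec cls sp k c ≤ T) (g : ℕ)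
    (h : g ≤ 2 ^ k * Fintype.card J ∨ ∃ c, g ≤ EE cls sp k c) : (g : ℝ) * (1 / 2 ^ k) ≤ T := by
  have h6 : (0 : ℝ) < 2 ^ k := by positivity
  rcases h with h | ⟨c, h⟩
  · have h1 : (g : ℝ) ≤ 2 ^ k * Fintype.card J := by exact_mod_cast h
    calc (g : ℝ) * (1 / 2 ^ k) ≤ 2 ^ k * Fintype.card J * (1 / 2 ^ k) := by gcongr
      _ = Fintype.card J := by field_simp
      _ ≤ T := hn
  · have h1 : (g : ℝ) ≤ EE cls sp k c := by exact_mod_cast h
    calc (g : ℝ) * (1 / 2 ^ k) ≤ EE cls sp k c * (1 / 2 ^ k) := by gcongr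
      _ = _ := EE_eq cls sp k c
      _ ≤ T := hc c

theorem bd_lt {cls : J → Fin 3} {sp : J → Bool} {k : ℕ} {T : ℝ} (hn : (Fintype.card J : ℝ) ≤ T)
    (hc : ∀ c : Fin 3, (Fintype.card J : ℝ) + ec cls sp k c ≤ T) (g : ℕ)
    (h : g < 2 ^ k * Fintype.card J ∨ ∃ c, g < EE cls sp k c) :
    (g : ℝ) * (1 / 2 ^ k) ≤ T - 1 / 2 ^ k := by
  have h1 := bd_le hn hc (g + 1) (h.imp (fun h => h) fun ⟨c, h⟩ => ⟨c, h⟩)
  push_cast at h1
  linarith

end

theorem ca_of {ι : Type} [DecidableEq ι] (L : ι → ι → Bool) (Z : Finset ι) (r M : ℝ)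
    (h : ∀ F G : Finset ι, (∀ i ∈ F, ∀ j ∈ F, L i j = L j i) →
      (∀ i ∈ G, i ∈ F ∧ ¬ (i ∈ Z ∧ Unc L i F)) → (G.card : ℝ) * r ≤ M) :
    CA L Z (fun _ => r) M := by
  intro F hF
  rw [sum_const, nsmul_eq_mul]
  exact h F _ hF fun i hi => mem_filter.mp hi

theorem cb_of {ι : Type} [DecidableEq ι] (L : ι → ι → Bool) (Z : Finset ι) (r M : ℝ)
    (h : ∀ F W G : Finset ι, Disjoint F W → (∀ i ∈ F, ∀ j ∈ F, L i j = L j i) →
      (∃ w ∈ W, ¬ (w ∈ Z ∧ Unc L w (F ∪ W))) →
      (∀ i ∈ G, i ∈ F ∧ (∀ w ∈ W, L i w = L w i) ∧ ¬ (i ∈ Z ∧ Unc L i (F ∪ W))) →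
      (G.card : ℝ) * r ≤ M) :
    CB L Z (fun _ => r) M := by
  intro F W hFW hF hw
  rw [sum_const, nsmul_eq_mul]
  exact h F W _ hFW hF hw fun i hi => mem_filter.mp hi

theorem cd_of {ι : Type} [DecidableEq ι] (L : ι → ι → Bool) (Z : Finset ι) (r M : ℝ)
    (h : ∀ F W G : Finset ι, Disjoint F W → (∀ i ∈ F, ∀ j ∈ F, L i j = L j i) →
      (∀ w ∈ W, w ∈ Z ∧ Unc L w (F ∪ W)) →
      (∃ w ∈ W, ∃ q ∈ Z, L w q ≠ L q w ∧ ∀ i ∈ F, i ∉ Z → L i q = L q i) →
      (∀ i ∈ G, i ∈ F ∧ (∀ w ∈ W, L i w = L w i) ∧ ¬ (i ∈ Z ∧ Unc L i (F ∪ W))) →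
      (G.card : ℝ) * r ≤ M) :
    Pool.Agent.N870.D.CD L Z (fun _ => r) M := by
  intro F W hFW hF hW hw
  rw [sum_const, nsmul_eq_mul]
  exact h F W _ hFW hF hW hw fun i hi => mem_filter.mp hi

theorem core2 {J : Type} [Fintype J] [DecidableEq J] {cls : J → Fin 3} {sp : J → Bool} {k : ℕ}
    (hk : 1 ≤ k) (hJ : ∀ c : Fin 3, ∃ j, cls j ≠ c) (F W G : Finset (IA J k))
    (hF : ∀ i ∈ F, ∀ j ∈ F, LA cls i j = LA cls j i)
    (hG : ∀ i ∈ G, i ∈ F ∧ (∀ w ∈ W, LA cls i w = LA cls w i) ∧
      ¬ (i ∈ ZA sp k ∧ Unc (LA cls) i (F ∪ W))) :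
    (G.card < 2 ^ k * Fintype.card J ∨ ∃ c, G.card < EE cls sp k c) ∨
      (F ∪ W ⊆ G ∨ ∃ c, II cls sp k (F ∪ W) G c) := by
  rcases core hk hJ G (F ∪ W) G (fun i hi => mem_union_left _ (hG i hi).1)
    (fun i hi j hj => by
      rcases mem_union.mp hj with h | h
      · exact hF i (hG i hi).1 j h
      · exact (hG i hi).2.1 j h)
    (fun i hi => ⟨hi, (hG i hi).2.2⟩) with h | ⟨_, h⟩
  · exact Or.inl h
  · exact Or.inr h

theorem t_CMB : Pool.Agent.N870.D.S_CMB := by
  intro J _ _ cls sp k hk hJ T hn hc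
  refine ⟨ca_of _ _ _ _ ?_, cb_of _ _ _ _ ?_, cd_of _ _ _ _ ?_⟩
  · -- CA
    intro F G hF hG
    apply bd_le hn hc
    rcases core hk hJ F F G subset_rfl hF hG with (h | ⟨c, h⟩) | h
    · exact Or.inl h.le
    · exact Or.inr ⟨c, h.le⟩
    · exact h.1
  · -- CB
    intro F W G hFW hF ⟨w, hw, hwZ⟩ hG
    apply bd_lt hn hc
    have hd : w ∉ F := fun h => (Finset.disjoint_left.mp hFW) h hw
    have hGF : ∀ i ∈ G, i ∈ F := fun i hi => (hG i hi).1
    rcases core2 hk hJ F W G hF hG with h | h | ⟨c, h1, h2, h3⟩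
    · exact h
    · exact absurd (hGF w (h (mem_union_right _ hw))) hd
    · exfalso
      by_cases hwc : cls w.1 = c
      · by_cases hev : sp w.1 = true ∨ dt k w.2.1 w.2.2 % 2 = 0
        · exact hd (hGF _ (h3 w.1 w.2 hwc hev))
        · apply hwZ
          rw [not_or] at hev
          refine ⟨?_, unc_of h1 w hwc⟩
          unfold ZA
          rw [mem_filter]
          refine ⟨mem_univ _, by simpa using hev.1, ?_⟩
          have := hev.2
          omega
      · have h4 := h1 w (mem_union_right _ hw) hwc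
        have h5 := h2 w.1 hwc
        rw [← h4] at h5
        exact hd (hGF _ h5)
  · -- CD
    intro F W G hFW hF hWZ ⟨w, hw, q, hq, hwq, hFq⟩ hG
    apply bd_lt hn hc
    have hd : w ∉ F := fun h => (Finset.disjoint_left.mp hFW) h hw
    have hGF : ∀ i ∈ G, i ∈ F := fun i hi => (hG i hi).1
    rcases core2 hk hJ F W G hF hG with h | h | ⟨c, h1, h2, h3⟩
    · exact h
    · exact absurd (hGF w (h (mem_union_right _ hw))) hd
    · exfalso
      have hwZ := (hWZ w hw).1
      unfold ZA at hwZ hq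
      rw [mem_filter] at hwZ hq
      have hwc : cls w.1 = c := by
        by_contra hwc
        have h4 := h1 w (mem_union_right _ hw) hwc
        have h5 := hwZ.2.2
        rw [h4] at h5
        unfold z0 at h5
        simp only [dt_zl] at h5
        omega
      have hqc : cls w.1 ≠ cls q.1 := by
        intro h
        apply hwq
        unfold LA
        simp [h]
      have h4 := h3 w.1 (q.2.1, fun _ => false) hwc (Or.inr (by simp only [dt_zr]))
      have h5 := hFq _ (hGF _ h4) (by
        unfold ZA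
        rw [mem_filter]
        rintro ⟨_, _, h⟩
        simp only [dt_zr] at h
        omega)
      unfold LA at h5
      have h6 := hq.2.2
      simp [hqc, hqc.symm, dt_zr] at h5
      omega

end Pool.Agent.N263.D
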